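import Mathlib
import Pool.Agent.Q147.Heis

/-!
# MP_9d0418_gt : a group with finite double centralizers, not `σ`-discrete in the
semi-Zariski topology
-/

namespace Pool.Agent.Results.MP_9d0418_gt.HeisenbergNotSigmaDiscrete

open Pool.Agent.Q147.SemiZar Pool.Agent.Q147.Heis

/-- There is a group with finite double centralizers (even `|Cent(Cent(f))| ≤ 4` for all `f`) that
is not a countable union of discrete subspaces of its semi-Zariski topology. -/
theorem result : ∃ (G : Type) (_ : Group G), FiniteDoubleCentralizers G ∧
    (∀ f : G, (Cent (Cent {f})).encard ≤ 4) ∧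
    ¬ SigmaDiscreteOn (semiZariski G) (Set.univ : Set G) := by
  refine ⟨Hs, inferInstance, finiteDoubleCentralizers, ?_, not_sigmaDiscrete⟩
  intro f
  have h : f ∈ Sle Hs 4 := by rw [Sle_four]; trivial
  exact h

end Pool.Agent.Results.MP_9d0418_gt.HeisenbergNotSigmaDiscrete
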